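import Pool.Agent.Run7.h19.HP.Iface

set_option autoImplicit false

open Module Submodule Finset Pool.Agent.H99.SubDeg Run7.h19.HP

namespace Run7.h391.HP

open scoped Classical in
theorem t_CUT : S_CUT := by
  intro K _ _ V _ _ _ k τ F T h j hj P
  have hsub : F.filter (fun A => P ≤ A) ⊆ (Fge F j).filter (fun A => P ≤ A) ∪
      (Tlt F j).biUnion (fun S => F.filter (fun A => S ≤ A)) := by
    intro A hA
    rw [Finset.mem_filter] at hA
    rw [Finset.mem_union]
    by_cases hc : ∀ S : Submodule K V, Transv F S → finrank K S < j → ¬ S ≤ A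
    · left
      rw [Finset.mem_filter, Fge, Finset.mem_filter]
      exact ⟨⟨hA.1, hc⟩, hA.2⟩
    · right
      push Not at hc
      obtain ⟨S, hS1, hS2, hS3⟩ := hc
      rw [Finset.mem_biUnion]
      refine ⟨S, ?_, ?_⟩
      · rw [Tlt, Finset.mem_filter]
        exact ⟨Finset.mem_univ _, hS2, hS1⟩
      · rw [Finset.mem_filter]
        exact ⟨hA.1, hS3⟩
  have hdeg : ∀ S ∈ Tlt F j, (F.filter (fun A => S ≤ A)).card ≤ bb k τ := by
    intro S hS
    rw [Tlt, Finset.mem_filter] at hS
    have hτS : τ ≤ finrank K S := by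
      by_contra hlt
      exact h.hmin S (by omega) hS.2.2
    obtain ⟨C, -, hC2, hC3⟩ := exists_between' τ (⊥ : Submodule K V) S bot_le
      (by rw [finrank_bot]; omega)
    rw [finrank_bot, zero_add] at hC3
    have h1 := deg_bb h F (Finset.Subset.refl _) C (by rw [hC3]; exact h.hτk)
    rw [hC3] at h1
    refine le_trans (Finset.card_le_card ?_) h1
    intro A hA
    rw [Finset.mem_filter] at hA ⊢
    exact ⟨hA.1, hC2.trans hA.2⟩
  calc deg F P = (F.filter (fun A => P ≤ A)).card := rfl
    _ ≤ _ := Finset.card_le_card hsub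
    _ ≤ _ := Finset.card_union_le _ _
    _ ≤ deg (Fge F j) P + (Tlt F j).card * bb k τ :=
        Nat.add_le_add le_rfl (Finset.card_biUnion_le_card_mul _ _ _ hdeg)

end Run7.h391.HP
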