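import Pool.Agent.Run7.h19.HP.Iface

set_option autoImplicit false

open Module Submodule Finset Pool.Agent.H99.SubDeg Run7.h19.HP

namespace Run7.h391.HP

theorem t_FIN0 (lm : S_LM) (n6 : S_N6) : S_FIN0 := by
  intro K _ _ V _ _ _ k τ F T h hτ P hP
  classical
  obtain ⟨hP1, hP2, hP3⟩ := hP
  have hk := h.hk
  have hend : ∀ S : Submodule K V, (⊥ : Submodule K V) ≤ S → finrank K S = k - 2 →
      deg F S ≤ 13 * 4 ^ k / 16 := by
    intro S _ hS
    have h1 := lm K V k τ F T h (by omega) S (by omega)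
    have h2 : deg F S ≤ ((TT F τ).filter (fun A => S ≤ A)).card := by
      refine Finset.card_le_card ?_
      intro A hA
      rw [Finset.mem_filter] at hA ⊢
      refine ⟨?_, hA.2⟩
      rw [TT, Finset.mem_filter]
      refine ⟨Finset.mem_univ _, ?_, ?_⟩
      · rw [h.hF.1.1 A hA.1, hτ]
      · intro B hB
        exact h.hF.1.2 B hB A hA.1
    rw [Nat.le_div_iff_mul_le (by norm_num)]
    have h3 : deg F S * 16 ≤ 16 * ((TT F τ).filter (fun A => S ≤ A)).card := by
      rw [mul_comm]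
      exact Nat.mul_le_mul_left _ h2
    refine h3.trans ?_
    convert h1 using 3
  have hp : (pts T).card = 2 ^ k - 1 := by
    have h1 := pts_card T
    rw [h.hq, h.hT, hτ] at h1
    simpa using h1
  have h4 : deg F P ≤ (2 ^ k - 1) * ((2 ^ k - 1) ^ (k - 4) * (13 * 4 ^ k / 16)) := by
    rw [← hp]
    rw [hp]
    have h5 : deg F P ≤ (pts T).card * ((2 ^ k - 1) ^ (k - 4) * (13 * 4 ^ k / 16)) := by
      refine branching F P T (fun B hB => h.hTt B hB) _ ?_
      intro Q hQ
      simp only [pts, Finset.mem_filter, Finset.mem_univ, true_and] at hQ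
      have hQP : ¬ Q ≤ P := by
        intro h1
        have h2 : Q = P := point_eq hQ.1 hP1 h1
        exact hP3 (h2 ▸ hQ.2)
      have hd : finrank K (P ⊔ Q : Submodule K V) = 2 := by
        rw [finrank_sup_point P Q hQ.1 hQP, hP1]
      refine iter h F ⊥ (k - 2) (13 * 4 ^ k / 16) ?_ ?_ hend (k - 4) (P ⊔ Q) bot_le (by omega)
      · intro A hA G hG
        exact h.hF.1.2 A hA G hG
      · intro A hA S _ hS hSj _
        exact h.hmin S (by omega) hS
    rw [hp] at h5
    exact h5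
  have h6 := n6 k hk
  have h7 : 16 * deg F P ≤ 16 * bb k 2 := by
    calc 16 * deg F P ≤ 16 * ((2 ^ k - 1) * ((2 ^ k - 1) ^ (k - 4) * (13 * 4 ^ k / 16))) :=
          Nat.mul_le_mul_left _ h4
      _ = (2 ^ k - 1) * (2 ^ k - 1) ^ (k - 4) * (16 * (13 * 4 ^ k / 16)) := by ring
      _ ≤ (2 ^ k - 1) * (2 ^ k - 1) ^ (k - 4) * (13 * 4 ^ k) :=
          Nat.mul_le_mul_left _ (Nat.mul_div_le _ _)
      _ ≤ 16 * bb k 2 := h6
  omega

end Run7.h391.HP
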