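import Pool.Agent.Run7.h19.HP.Iface

set_option autoImplicit false

open Module Submodule Finset Pool.Agent.H99.SubDeg Run7.h19.HP

namespace Run7.h391.HP

/-- branching over `T`; the lines through `P` which miss `T'` are branched over `T'` -/
theorem two_level {K : Type} [Field K] [Finite K] {V : Type} [AddCommGroup V] [Module K V]
    [Finite V] {k τ : ℕ} {F : Finset (Submodule K V)} {T : Submodule K V} (h : Cfg k τ F T)
    (F' : Finset (Submodule K V)) (hF' : F' ⊆ F) (j m0 : ℕ) (hj : 3 ≤ j)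
    (hno : ∀ A ∈ F', ∀ S : Submodule K V, Transv F S → finrank K S < j → ¬ S ≤ A)
    (hend : ∀ S : Submodule K V, finrank K S = j → deg F' S ≤ m0)
    (P T' : Submodule K V) (hP : finrank K P = 1) (hPT : ¬ P ≤ T) (hPT' : ¬ P ≤ T')
    (hT' : Transv F T') (a : ℕ) (haτ : a ≤ τ)
    (hap : ∀ A : Finset (Submodule K V), A ⊆ pts T → (∀ Q ∈ A, (P ⊔ Q) ⊓ T' ≠ ⊥) →
      A.card ≤ 2 ^ a) :
    deg F' P ≤ 2 ^ a * ((2 ^ k - 1) ^ (j - 2) * m0)
      + (2 ^ τ - 1) * ((2 ^ finrank K T' - 1) * ((2 ^ k - 1) ^ (j - 3) * m0)) := by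
  classical
  have hmeet : ∀ A ∈ F', ∀ G ∈ F, A ⊓ G ≠ ⊥ := fun A hA G hG => h.hF.1.2 A (hF' hA) G hG
  have hno' : ∀ A ∈ F', ∀ S : Submodule K V, (⊥ : Submodule K V) ≤ S → Transv F S →
      finrank K S < j → ¬ S ≤ A := fun A hA S _ => hno A hA S
  have hend' : ∀ S : Submodule K V, (⊥ : Submodule K V) ≤ S → finrank K S = j →
      deg F' S ≤ m0 := fun S _ => hend S
  have hp : (pts T).card = 2 ^ τ - 1 := by
    have h1 := pts_card T
    rw [h.hq, h.hT] at h1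
    simpa using h1
  have hp' : (pts T').card = 2 ^ finrank K T' - 1 := by
    have h1 := pts_card T'
    rw [h.hq] at h1
    simpa using h1
  have hline : ∀ Q ∈ pts T, finrank K (P ⊔ Q : Submodule K V) = 2 := by
    intro Q hQ
    simp only [pts, Finset.mem_filter, Finset.mem_univ, true_and] at hQ
    have hQP : ¬ Q ≤ P := by
      intro h1
      have h2 : Q = P := point_eq hQ.1 hP h1
      exact hPT (h2 ▸ hQ.2)
    rw [finrank_sup_point P Q hQ.1 hQP, hP]
  set A0 := (pts T).filter (fun Q => (P ⊔ Q) ⊓ T' ≠ ⊥) with hA0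
  have hA0c : A0.card ≤ 2 ^ a := by
    refine hap A0 (Finset.filter_subset _ _) ?_
    intro Q hQ
    rw [hA0, Finset.mem_filter] at hQ
    exact hQ.2
  have h1 : deg F' P ≤ ∑ Q ∈ pts T, deg F' (P ⊔ Q) :=
    branch_sum F' P T (fun A hA => h.hTt A (hF' hA))
  have h2 : ∑ Q ∈ pts T, deg F' (P ⊔ Q)
      = ∑ Q ∈ A0, deg F' (P ⊔ Q)
        + ∑ Q ∈ (pts T).filter (fun Q => ¬ ((P ⊔ Q) ⊓ T' ≠ ⊥)), deg F' (P ⊔ Q) :=
    (Finset.sum_filter_add_sum_filter_not _ _ _).symm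
  have h3 : ∑ Q ∈ A0, deg F' (P ⊔ Q) ≤ 2 ^ a * ((2 ^ k - 1) ^ (j - 2) * m0) := by
    refine le_trans (Finset.sum_le_card_nsmul _ _ ((2 ^ k - 1) ^ (j - 2) * m0) ?_) ?_
    · intro Q hQ
      rw [hA0, Finset.mem_filter] at hQ
      exact iter h F' ⊥ j m0 hmeet hno' hend' (j - 2) (P ⊔ Q) bot_le
        (by rw [hline Q hQ.1]; omega)
    · rw [smul_eq_mul]
      exact Nat.mul_le_mul_right _ hA0c
  have h4 : ∑ Q ∈ (pts T).filter (fun Q => ¬ ((P ⊔ Q) ⊓ T' ≠ ⊥)), deg F' (P ⊔ Q)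
      ≤ (2 ^ τ - 1) * ((2 ^ finrank K T' - 1) * ((2 ^ k - 1) ^ (j - 3) * m0)) := by
    refine le_trans (Finset.sum_le_card_nsmul _ _
      ((2 ^ finrank K T' - 1) * ((2 ^ k - 1) ^ (j - 3) * m0)) ?_) ?_
    · intro Q hQ
      rw [Finset.mem_filter, not_not] at hQ
      rw [← hp']
      refine branching F' (P ⊔ Q) T' (fun B hB => hT' B (hF' hB)) _ ?_
      intro R hR
      simp only [pts, Finset.mem_filter, Finset.mem_univ, true_and] at hR
      have hRn : ¬ R ≤ P ⊔ Q := by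
        intro h5
        have h6 : R ≤ (P ⊔ Q) ⊓ T' := le_inf h5 hR.2
        rw [hQ.2, le_bot_iff] at h6
        exact point_ne_bot hR.1 h6
      have hd := finrank_sup_point (P ⊔ Q) R hR.1 hRn
      rw [hline Q hQ.1] at hd
      exact iter h F' ⊥ j m0 hmeet hno' hend' (j - 3) (P ⊔ Q ⊔ R) bot_le (by omega)
    · rw [smul_eq_mul]
      refine Nat.mul_le_mul_right _ ?_
      rw [← hp]
      exact Finset.card_le_card (Finset.filter_subset _ _)
  rw [h2] at h1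
  exact h1.trans (Nat.add_le_add h3 h4)

theorem t_STEP1 (cut : S_CUT) (ap : S_AP) (n1 : S_N1) : S_STEP1 := by
  intro K _ _ V _ _ _ k τ F T h h1 h2 j hj h3 P hP T' hT' hPT'
  obtain ⟨hP1, hP2, hP3⟩ := hP
  have hk := h.hk
  classical
  rw [TT, Finset.mem_filter] at hT'
  obtain ⟨-, hT'd, hT't⟩ := hT'
  by_contra hlt
  have hsub : Fge F j ⊆ F := by
    intro A hA
    rw [Fge, Finset.mem_filter] at hA
    exact hA.1
  have h4 := two_level h (Fge F j) hsub j (bb k j) (by omega)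
    (by
      intro A hA S hS hSj
      rw [Fge, Finset.mem_filter] at hA
      exact hA.2 S hS hSj)
    (by
      intro S hS
      have h5 := deg_bb h (Fge F j) hsub S (by omega)
      rw [hS] at h5
      exact h5) P T' hP1 hP3 hPT' hT't (τ - 10) (by omega)
    (by
      intro A hA hA2
      by_contra hc
      have h6 := ap K V P T T' A (τ - 10) h.hq hP1 hP3 hPT' hA hA2 (by omega)
      omega)
  have h5 := cut K V k τ F T h j (by omega) P
  have h6 := n1 k τ j hk h1 h2 hj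
  have h7 : (Tlt F j).card * bb k τ ≤ 2 ^ (41 * k) * bb k τ := Nat.mul_le_mul_right _ h3
  rw [hT'd] at h4
  omega

theorem t_STEP2 (dy : S_DY) (ap : S_AP) (n5 : S_N5) : S_STEP2 := by
  intro K _ _ V _ _ _ k τ F T h h1 P hP T' hT' hPT'
  obtain ⟨hP1, hP2, hP3⟩ := hP
  have hk := h.hk
  classical
  rw [TT, Finset.mem_filter] at hT'
  obtain ⟨-, hT'd, hT't⟩ := hT'
  by_contra hlt
  have h4 := two_level h F (Finset.Subset.refl _) (τ - 2) (55 * 8 ^ k / 16) (by omega)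
    (by
      intro A hA S hS hSj _
      exact h.hmin S (by omega) hS)
    (by
      intro S hS
      have h5 := dy K V k τ F T h h1 S (by omega)
      rw [Nat.le_div_iff_mul_le (by norm_num), mul_comm]
      exact h5) P T' hP1 hP3 hPT' hT't (τ - 10) (by omega)
    (by
      intro A hA hA2
      by_contra hc
      have h6 := ap K V P T T' A (τ - 10) h.hq hP1 hP3 hPT' hA hA2 (by omega)
      omega)
  have h6 := n5 k hk
  rw [hT'd, show τ - 10 = k - 11 by omega, show τ - 2 - 2 = k - 5 by omega,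
    show τ - 2 - 3 = k - 6 by omega, show τ = k - 1 by omega] at h4
  have h7 : 16 * (55 * 8 ^ k / 16) ≤ 55 * 8 ^ k := Nat.mul_div_le _ _
  have h8 : 16 * deg F P ≤ 16 * bb k 2 := by
    calc 16 * deg F P ≤ 16 * (2 ^ (k - 11) * ((2 ^ k - 1) ^ (k - 5) * (55 * 8 ^ k / 16))
          + (2 ^ (k - 1) - 1) * ((2 ^ (k - 1) - 1) * ((2 ^ k - 1) ^ (k - 6)
            * (55 * 8 ^ k / 16)))) := Nat.mul_le_mul_left _ h4
      _ = 2 ^ (k - 11) * (2 ^ k - 1) ^ (k - 5) * (16 * (55 * 8 ^ k / 16))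
          + (2 ^ (k - 1) - 1) * (2 ^ (k - 1) - 1) * (2 ^ k - 1) ^ (k - 6)
            * (16 * (55 * 8 ^ k / 16)) := by ring
      _ ≤ 2 ^ (k - 11) * (2 ^ k - 1) ^ (k - 5) * (55 * 8 ^ k)
          + (2 ^ (k - 1) - 1) * (2 ^ (k - 1) - 1) * (2 ^ k - 1) ^ (k - 6) * (55 * 8 ^ k) :=
          Nat.add_le_add (Nat.mul_le_mul_left _ h7) (Nat.mul_le_mul_left _ h7)
      _ ≤ 16 * bb k 2 := h6
  omega

end Run7.h391.HP
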