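import Pool.Agent.Run7.h19.HP.Iface

set_option autoImplicit false

open Module Submodule Finset Pool.Agent.H99.SubDeg Run7.h19.HP

namespace Run7.h391.HP

section
variable {K : Type} [Field K] [Finite K] {V : Type} [AddCommGroup V] [Module K V] [Finite V]

/-- the vectors of `W` -/
noncomputable def vecs (W : Submodule K V) : Finset V := (Set.toFinite (W : Set V)).toFinset

theorem mem_vecs {W : Submodule K V} {v : V} : v ∈ vecs W ↔ v ∈ W := by simp [vecs]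

theorem card_vecs (W : Submodule K V) : (vecs W).card = Nat.card K ^ finrank K W := by
  rw [vecs, ← Set.ncard_eq_toFinset_card, ← Nat.card_coe_set_eq]
  exact Module.natCard_eq_pow_finrank (K := K) (V := W)

theorem fin_add (X : Submodule K V) (v : V) (hv : v ∉ X) :
    finrank K (X ⊔ span K {v} : Submodule K V) = finrank K X + 1 := by
  have hv0 : v ≠ 0 := by rintro rfl; exact hv X.zero_mem
  exact finrank_sup_point X _ (finrank_span_singleton hv0)
    (fun hh => hv ((span_singleton_le_iff_mem v X).mp hh))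

theorem ext2 (X S : Submodule K V) (hXS : X ≤ S) (hd : finrank K S = finrank K X + 2) (v w : V)
    (hv : v ∈ S) (hw : w ∈ S) (hvX : v ∉ X) (hwX : w ∉ X ⊔ span K {v}) :
    X ⊔ span K {v} ⊔ span K {w} = S := by
  refine eq_of_le_of_finrank_eq ?_ ?_
  · exact sup_le (sup_le hXS ((span_singleton_le_iff_mem v S).mpr hv))
      ((span_singleton_le_iff_mem w S).mpr hw)
  · rw [fin_add _ w hwX, fin_add X v hvX, hd]

theorem exists_vec (A : Submodule K V) (hA : A ≠ ⊥) : ∃ v ∈ A, v ≠ 0 :=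
  exists_mem_ne_zero_of_ne_bot hA

/-- separation -/
theorem sep {k τ : ℕ} {F : Finset (Submodule K V)} {T : Submodule K V} (h : Cfg k τ F T)
    (X : Submodule K V) (hX : finrank K X + 2 = τ) (r : V) (hr : r ∉ X) :
    ∃ C ∈ F, C ⊓ (X ⊔ span K {r}) = ⊥ ∧ C ⊓ X = ⊥ ∧ r ∉ X ⊔ C := by
  have h1 : ¬ Transv F (X ⊔ span K {r}) := h.hmin _ (by rw [fin_add X r hr]; omega)
  unfold Pool.Agent.H99.SubDeg.Transv at h1
  push Not at h1
  obtain ⟨C, hC, hC2⟩ := h1
  refine ⟨C, hC, hC2, ?_, ?_⟩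
  · rw [← le_bot_iff, ← hC2]
    exact inf_le_inf_left C le_sup_left
  · intro h2
    obtain ⟨x, hx, g, hg, hxg⟩ := Submodule.mem_sup.mp h2
    have h3 : g ∈ C ⊓ (X ⊔ span K {r}) := by
      refine ⟨hg, ?_⟩
      have h4 : g = r - x := by rw [← hxg]; abel
      rw [h4]
      exact Submodule.sub_mem _ (Submodule.mem_sup_right (Submodule.mem_span_singleton_self r))
        (Submodule.mem_sup_left hx)
    rw [hC2, Submodule.mem_bot] at h3
    rw [h3, add_zero] at hxg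
    exact hr (hxg ▸ hx)

open scoped Classical in
/-- the transversals of dimension `τ` above `X` -/
noncomputable def SS (F : Finset (Submodule K V)) (τ : ℕ) (X : Submodule K V) :
    Finset (Submodule K V) := (TT F τ).filter (fun S => X ≤ S)

theorem mem_SS {F : Finset (Submodule K V)} {τ : ℕ} {X S : Submodule K V} :
    S ∈ SS F τ X ↔ (finrank K S = τ ∧ Transv F S) ∧ X ≤ S := by
  simp [SS, TT]

open scoped Classical in
theorem fib {k τ : ℕ} {F : Finset (Submodule K V)} {T : Submodule K V} (h : Cfg k τ F T)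
    (X : Submodule K V) (hX : finrank K X + 2 = τ) (r : V) (hr : r ∉ X) :
    ((SS F τ X).filter (fun S => r ∈ S)).card ≤ 2 ^ k := by
  obtain ⟨C, hC, hC2, -, -⟩ := sep h X hX r hr
  have h1 : (SS F τ X).filter (fun S => r ∈ S)
      ⊆ (vecs C).image (fun g => X ⊔ span K {r} ⊔ span K {g}) := by
    intro S hS
    rw [Finset.mem_filter, mem_SS] at hS
    obtain ⟨⟨⟨hS1, hS2⟩, hS3⟩, hS4⟩ := hS
    obtain ⟨g, hg, hg0⟩ := exists_vec _ (hS2 C hC)
    rw [Finset.mem_image]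
    refine ⟨g, mem_vecs.mpr hg.1, ?_⟩
    refine ext2 X S hS3 (by omega) r g hS4 hg.2 hr ?_
    intro h2
    have h3 : g ∈ C ⊓ (X ⊔ span K {r}) := ⟨hg.1, h2⟩
    rw [hC2, Submodule.mem_bot] at h3
    exact hg0 h3
  calc _ ≤ _ := Finset.card_le_card h1
    _ ≤ (vecs C).card := Finset.card_image_le
    _ = 2 ^ k := by rw [card_vecs, h.hq, h.hF.1.1 C hC]

open scoped Classical in
theorem part1 {k τ : ℕ} {F : Finset (Submodule K V)} {T : Submodule K V} (h : Cfg k τ F T)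
    (X : Submodule K V) (hX : finrank K X + 2 = τ) (M : Submodule K V) (hM : M ⊓ X = ⊥) :
    ((SS F τ X).filter (fun S => S ⊓ M ≠ ⊥)).card ≤ 2 ^ finrank K M * 2 ^ k := by
  have h1 : (SS F τ X).filter (fun S => S ⊓ M ≠ ⊥)
      ⊆ ((vecs M).erase 0).biUnion (fun r => (SS F τ X).filter (fun S => r ∈ S)) := by
    intro S hS
    rw [Finset.mem_filter] at hS
    obtain ⟨r, hr, hr0⟩ := exists_vec _ hS.2
    rw [Finset.mem_biUnion]
    refine ⟨r, Finset.mem_erase.mpr ⟨hr0, mem_vecs.mpr hr.2⟩, ?_⟩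
    rw [Finset.mem_filter]
    exact ⟨hS.1, hr.1⟩
  calc _ ≤ _ := Finset.card_le_card h1
    _ ≤ ((vecs M).erase 0).card * 2 ^ k := by
        refine Finset.card_biUnion_le_card_mul _ _ _ ?_
        intro r hr
        rw [Finset.mem_erase, mem_vecs] at hr
        refine fib h X hX r ?_
        intro hrX
        have h2 : r ∈ M ⊓ X := ⟨hr.2, hrX⟩
        rw [hM, Submodule.mem_bot] at h2
        exact hr.1 h2
    _ ≤ (vecs M).card * 2 ^ k := Nat.mul_le_mul_right _ (Finset.card_le_card (Finset.erase_subset _ _))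
    _ = 2 ^ finrank K M * 2 ^ k := by rw [card_vecs, h.hq]

/-- a transversal which misses `A ⊓ (X ⊔ B)` -/
theorem struct2 {k τ : ℕ} {F : Finset (Submodule K V)} {T : Submodule K V} (h : Cfg k τ F T)
    (X : Submodule K V) (hX : finrank K X + 2 = τ) (A B : Submodule K V) (hA : A ∈ F) (hB : B ∈ F)
    (hAX : A ⊓ X = ⊥) (hBX : B ⊓ X = ⊥) (S : Submodule K V) (hS : S ∈ SS F τ X)
    (hSM : S ⊓ (A ⊓ (X ⊔ B)) = ⊥) :
    ∃ a b : V, a ∈ A ∧ b ∈ B ∧ a ∈ S ∧ b ∈ S ∧ a ≠ 0 ∧ b ≠ 0 ∧ a ∉ X ⊔ B ∧ b ∉ X ⊔ A ∧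
      ∀ α β : K, α ≠ 0 → β ≠ 0 → X ⊔ span K {α • a} ⊔ span K {β • b} = S := by
  rw [mem_SS] at hS
  obtain ⟨⟨hS1, hS2⟩, hS3⟩ := hS
  obtain ⟨a, ha, ha0⟩ := exists_vec _ (hS2 A hA)
  obtain ⟨b, hb, hb0⟩ := exists_vec _ (hS2 B hB)
  have haXB : a ∉ X ⊔ B := by
    intro h1
    have h2 : a ∈ S ⊓ (A ⊓ (X ⊔ B)) := ⟨ha.2, ha.1, h1⟩
    rw [hSM, Submodule.mem_bot] at h2
    exact ha0 h2
  have hbXA : b ∉ X ⊔ A := by
    intro h1
    obtain ⟨x, hx, a', ha', hxa⟩ := Submodule.mem_sup.mp h1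
    have e : a' = b - x := by rw [← hxa]; abel
    have h2 : a' ∈ S ⊓ (A ⊓ (X ⊔ B)) := by
      refine ⟨?_, ha', ?_⟩
      · rw [e]; exact Submodule.sub_mem _ hb.2 (hS3 hx)
      · rw [e]
        exact Submodule.sub_mem _ (Submodule.mem_sup_right hb.1) (Submodule.mem_sup_left hx)
    rw [hSM, Submodule.mem_bot] at h2
    rw [h2, add_zero] at hxa
    have h3 : b ∈ B ⊓ X := ⟨hb.1, hxa ▸ hx⟩
    rw [hBX, Submodule.mem_bot] at h3
    exact hb0 h3
  refine ⟨a, b, ha.1, hb.1, ha.2, hb.2, ha0, hb0, haXB, hbXA, ?_⟩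
  intro α β hα hβ
  have e1 : span K {α • a} = span K {a} := Submodule.span_singleton_smul_eq (IsUnit.mk0 α hα) a
  have e2 : span K {β • b} = span K {b} := Submodule.span_singleton_smul_eq (IsUnit.mk0 β hβ) b
  rw [e1, e2]
  refine ext2 X S hS3 (by omega) a b ha.2 hb.2 (fun h1 => haXB (Submodule.mem_sup_left h1)) ?_
  intro h1
  refine hbXA ?_
  have h2 : X ⊔ span K {a} ≤ X ⊔ A :=
    sup_le_sup_left ((span_singleton_le_iff_mem a A).mpr ha.1) X
  exact h2 h1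

open scoped Classical in
theorem part2 {k τ : ℕ} {F : Finset (Submodule K V)} {T : Submodule K V} (h : Cfg k τ F T)
    (X : Submodule K V) (hX : finrank K X + 2 = τ) (A B : Submodule K V) (hA : A ∈ F) (hB : B ∈ F)
    (hAX : A ⊓ X = ⊥) (hBX : B ⊓ X = ⊥) :
    ((SS F τ X).filter (fun S => ¬ S ⊓ (A ⊓ (X ⊔ B)) ≠ ⊥)).card
      ≤ (2 ^ k - 2 ^ finrank K (A ⊓ (X ⊔ B) : Submodule K V))
        * (2 ^ k - 2 ^ finrank K (B ⊓ (X ⊔ A) : Submodule K V)) := by
  have h1 : (SS F τ X).filter (fun S => ¬ S ⊓ (A ⊓ (X ⊔ B)) ≠ ⊥)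
      ⊆ ((vecs A \ vecs (A ⊓ (X ⊔ B))) ×ˢ (vecs B \ vecs (B ⊓ (X ⊔ A)))).image
        (fun p => X ⊔ span K {p.1} ⊔ span K {p.2}) := by
    intro S hS
    rw [Finset.mem_filter, not_not] at hS
    obtain ⟨a, b, ha, hb, -, -, -, -, h2, h3, h4⟩ := struct2 h X hX A B hA hB hAX hBX S hS.1 hS.2
    rw [Finset.mem_image]
    refine ⟨(a, b), ?_, ?_⟩
    · rw [Finset.mem_product, Finset.mem_sdiff, Finset.mem_sdiff, mem_vecs, mem_vecs, mem_vecs,
        mem_vecs]
      exact ⟨⟨ha, fun h5 => h2 h5.2⟩, ⟨hb, fun h5 => h3 h5.2⟩⟩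
    · have h5 := h4 1 1 one_ne_zero one_ne_zero
      rw [one_smul, one_smul] at h5
      exact h5
  have hA2 : (vecs A \ vecs (A ⊓ (X ⊔ B))).card
      = 2 ^ k - 2 ^ finrank K (A ⊓ (X ⊔ B) : Submodule K V) := by
    rw [Finset.card_sdiff_of_subset, card_vecs, card_vecs, h.hq, h.hF.1.1 A hA]
    intro v hv
    rw [mem_vecs] at hv ⊢
    exact hv.1
  have hB2 : (vecs B \ vecs (B ⊓ (X ⊔ A))).card
      = 2 ^ k - 2 ^ finrank K (B ⊓ (X ⊔ A) : Submodule K V) := by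
    rw [Finset.card_sdiff_of_subset, card_vecs, card_vecs, h.hq, h.hF.1.1 B hB]
    intro v hv
    rw [mem_vecs] at hv ⊢
    exact hv.1
  calc _ ≤ _ := Finset.card_le_card h1
    _ ≤ _ := Finset.card_image_le
    _ = _ := by rw [Finset.card_product, hA2, hB2]

open scoped Classical in
theorem coset {k τ : ℕ} {F : Finset (Submodule K V)} {T : Submodule K V} (h : Cfg k τ F T)
    (A W : Submodule K V) (w : V) :
    ((vecs A).filter (fun a => a + w ∈ W)).card ≤ 2 ^ finrank K (A ⊓ W : Submodule K V) := by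
  rcases ((vecs A).filter (fun a => a + w ∈ W)).eq_empty_or_nonempty with h0 | ⟨a0, ha0⟩
  · rw [h0]; simp
  · rw [← h.hq, ← card_vecs]
    refine Finset.card_le_card_of_injOn (fun a => a - a0) ?_ ?_
    · intro a ha
      rw [Finset.mem_coe, Finset.mem_filter, mem_vecs] at ha
      rw [Finset.mem_filter, mem_vecs] at ha0
      rw [Finset.mem_coe, mem_vecs]
      refine ⟨Submodule.sub_mem _ ha.1 ha0.1, ?_⟩
      have e : a - a0 = (a + w) - (a0 + w) := by abel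
      show a - a0 ∈ W
      rw [e]
      exact Submodule.sub_mem _ ha.2 ha0.2
    · intro a _ b _ hab
      simpa using hab

open scoped Classical in
theorem part3 {k τ : ℕ} {F : Finset (Submodule K V)} {T : Submodule K V} (h : Cfg k τ F T)
    (X : Submodule K V) (hX : finrank K X + 2 = τ) (A B C : Submodule K V) (hA : A ∈ F)
    (hB : B ∈ F) (hC : C ∈ F) (hAX : A ⊓ X = ⊥) (hBX : B ⊓ X = ⊥) (hCX : C ⊓ X = ⊥) (m : ℕ)
    (h1 : finrank K (A ⊓ (X ⊔ C) : Submodule K V) ≤ m)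
    (h2 : finrank K (B ⊓ (X ⊔ C) : Submodule K V) ≤ m) :
    ((SS F τ X).filter (fun S => ¬ S ⊓ (A ⊓ (X ⊔ B)) ≠ ⊥)).card ≤ 3 * (2 ^ m * 2 ^ k) := by
  set Q1 := vecs (A ⊓ (X ⊔ C)) ×ˢ vecs B with hQ1
  set Q2 := vecs A ×ˢ vecs (B ⊓ (X ⊔ C)) with hQ2
  set Q3 := (vecs B).biUnion (fun b => ((vecs A).filter (fun a => a + b ∈ X ⊔ C)).image
    (fun a => (a, b))) with hQ3
  have hsub : (SS F τ X).filter (fun S => ¬ S ⊓ (A ⊓ (X ⊔ B)) ≠ ⊥)
      ⊆ (Q1 ∪ Q2 ∪ Q3).image (fun p => X ⊔ span K {p.1} ⊔ span K {p.2}) := by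
    intro S hS
    rw [Finset.mem_filter, not_not] at hS
    obtain ⟨a, b, ha, hb, haS, hbS, ha0, hb0, h3, h4, h5⟩ :=
      struct2 h X hX A B hA hB hAX hBX S hS.1 hS.2
    have h11 := h5 1 1 one_ne_zero one_ne_zero
    obtain ⟨c, hc, hc0⟩ := exists_vec _ ((mem_SS.mp hS.1).1.2 C hC)
    have hcS : c ∈ X ⊔ span K {a} ⊔ span K {b} := by
      rw [one_smul, one_smul] at h11
      rw [h11]; exact hc.2
    obtain ⟨y, hy, z, hz, hyz⟩ := Submodule.mem_sup.mp hcS
    obtain ⟨x, hx, u, hu, hxu⟩ := Submodule.mem_sup.mp hy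
    obtain ⟨α, hα⟩ := Submodule.mem_span_singleton.mp hu
    obtain ⟨β, hβ⟩ := Submodule.mem_span_singleton.mp hz
    have hsum : α • a + β • b ∈ X ⊔ C := by
      have e : α • a + β • b = c - x := by
        rw [← hyz, ← hxu, ← hα, ← hβ]; abel
      rw [e]
      exact Submodule.sub_mem _ (Submodule.mem_sup_right hc.1) (Submodule.mem_sup_left hx)
    rw [Finset.mem_image]
    by_cases hα0 : α = 0
    · have hβ0 : β ≠ 0 := by
        rintro rfl
        rw [hα0, zero_smul] at hα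
        rw [zero_smul] at hβ
        rw [← hα, add_zero] at hxu
        rw [← hβ, add_zero, ← hxu] at hyz
        have h6 : c ∈ C ⊓ X := ⟨hc.1, hyz ▸ hx⟩
        rw [hCX, Submodule.mem_bot] at h6
        exact hc0 h6
      rw [hα0, zero_smul, zero_add] at hsum
      refine ⟨((1 : K) • a, β • b), ?_, h5 1 β one_ne_zero hβ0⟩
      rw [Finset.mem_union, Finset.mem_union]
      left; right
      rw [hQ2, Finset.mem_product, mem_vecs, mem_vecs, one_smul]
      exact ⟨ha, B.smul_mem _ hb, hsum⟩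
    · by_cases hβ0 : β = 0
      · rw [hβ0, zero_smul, add_zero] at hsum
        refine ⟨(α • a, (1 : K) • b), ?_, h5 α 1 hα0 one_ne_zero⟩
        rw [Finset.mem_union, Finset.mem_union]
        left; left
        rw [hQ1, Finset.mem_product, mem_vecs, mem_vecs, one_smul]
        exact ⟨⟨A.smul_mem _ ha, hsum⟩, hb⟩
      · refine ⟨(α • a, β • b), ?_, h5 α β hα0 hβ0⟩
        rw [Finset.mem_union]
        right
        rw [hQ3, Finset.mem_biUnion]
        refine ⟨β • b, mem_vecs.mpr (B.smul_mem _ hb), ?_⟩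
        rw [Finset.mem_image]
        refine ⟨α • a, ?_, rfl⟩
        rw [Finset.mem_filter, mem_vecs]
        exact ⟨A.smul_mem _ ha, hsum⟩
  have hkA : (vecs A).card = 2 ^ k := by rw [card_vecs, h.hq, h.hF.1.1 A hA]
  have hkB : (vecs B).card = 2 ^ k := by rw [card_vecs, h.hq, h.hF.1.1 B hB]
  have hp1 : 2 ^ finrank K (A ⊓ (X ⊔ C) : Submodule K V) ≤ 2 ^ m :=
    Nat.pow_le_pow_right (by norm_num) h1
  have hp2 : 2 ^ finrank K (B ⊓ (X ⊔ C) : Submodule K V) ≤ 2 ^ m :=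
    Nat.pow_le_pow_right (by norm_num) h2
  have hc1 : Q1.card ≤ 2 ^ m * 2 ^ k := by
    rw [hQ1, Finset.card_product, hkB, card_vecs, h.hq]
    exact Nat.mul_le_mul_right _ hp1
  have hc2 : Q2.card ≤ 2 ^ m * 2 ^ k := by
    rw [hQ2, Finset.card_product, hkA, card_vecs, h.hq, mul_comm]
    exact Nat.mul_le_mul_right _ hp2
  have hc3 : Q3.card ≤ 2 ^ m * 2 ^ k := by
    rw [hQ3, mul_comm, ← hkB]
    refine Finset.card_biUnion_le_card_mul _ _ _ ?_
    intro b _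
    exact (Finset.card_image_le.trans (coset h A (X ⊔ C) b)).trans hp1
  calc _ ≤ _ := Finset.card_le_card hsub
    _ ≤ (Q1 ∪ Q2 ∪ Q3).card := Finset.card_image_le
    _ ≤ (Q1 ∪ Q2).card + Q3.card := Finset.card_union_le _ _
    _ ≤ Q1.card + Q2.card + Q3.card := Nat.add_le_add_right (Finset.card_union_le _ _) _
    _ ≤ 3 * (2 ^ m * 2 ^ k) := by omega

end

open scoped Classical in
theorem t_LM : S_LM := by
  intro K _ _ V _ _ _ k τ F T h hkτ X hX
  have hk := h.hk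
  have hSS : (TT F τ).filter (fun S => X ≤ S) = SS F τ X := rfl
  rw [hSS]
  -- pairs
  set KK := F.filter (fun A => A ⊓ X = ⊥) with hKK
  set PP := (KK ×ˢ KK).filter (fun p => finrank K (p.1 ⊓ (X ⊔ p.2) : Submodule K V) < k) with hPP
  have hXnt : ∃ A ∈ F, A ⊓ X = ⊥ := by
    have h1 : ¬ Transv F X := h.hmin X (by omega)
    unfold Pool.Agent.H99.SubDeg.Transv at h1
    push Not at h1
    exact h1
  have hsepA : ∀ (A : Submodule K V) (r : V), A ∈ F → A ⊓ X = ⊥ → r ∈ A → r ≠ 0 → r ∉ X := by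
    intro A r _ hAX hr hr0 hrX
    have h1 : r ∈ A ⊓ X := ⟨hr, hrX⟩
    rw [hAX, Submodule.mem_bot] at h1
    exact hr0 h1
  have hlt : ∀ (A W : Submodule K V) (r : V), A ∈ F → r ∈ A → r ∉ W →
      finrank K (A ⊓ W : Submodule K V) < k := by
    intro A W r hA hr hrW
    rw [← h.hF.1.1 A hA]
    refine Submodule.finrank_lt_finrank_of_lt (lt_of_le_of_ne inf_le_left ?_)
    intro h1
    rw [← h1] at hr
    exact hrW hr.2
  have hPne : PP.Nonempty := by
    obtain ⟨A, hA, hAX⟩ := hXnt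
    have hA0 : A ≠ ⊥ := by
      intro h0
      have h1 := h.hF.1.1 A hA
      rw [h0, finrank_bot] at h1
      omega
    obtain ⟨r, hr, hr0⟩ := exists_vec A hA0
    obtain ⟨C, hC, -, hCX, hrC⟩ := sep h X hX r (hsepA A r hA hAX hr hr0)
    refine ⟨(A, C), ?_⟩
    rw [hPP, Finset.mem_filter, Finset.mem_product, hKK, Finset.mem_filter, Finset.mem_filter]
    exact ⟨⟨⟨hA, hAX⟩, ⟨hC, hCX⟩⟩, hlt A (X ⊔ C) r hA hr hrC⟩
  obtain ⟨⟨A, B⟩, hAB, hmax⟩ := Finset.exists_max_image PP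
    (fun p => finrank K (p.1 ⊓ (X ⊔ p.2) : Submodule K V)) hPne
  have hAB' := hAB
  rw [hPP, Finset.mem_filter, Finset.mem_product, hKK, Finset.mem_filter, Finset.mem_filter] at hAB'
  obtain ⟨⟨⟨hA, hAX⟩, ⟨hB, hBX⟩⟩, hm⟩ := hAB'
  simp only at hA hAX hB hBX hm
  set m := finrank K (A ⊓ (X ⊔ B) : Submodule K V) with hmdef
  have hXB : finrank K (X ⊔ B : Submodule K V) = finrank K X + k := by
    have h1 := Submodule.finrank_sup_add_finrank_inf_eq X B
    rw [inf_comm, hBX, finrank_bot, h.hF.1.1 B hB] at h1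
    omega
  have hXA : finrank K (X ⊔ A : Submodule K V) = finrank K X + k := by
    have h1 := Submodule.finrank_sup_add_finrank_inf_eq X A
    rw [inf_comm, hAX, finrank_bot, h.hF.1.1 A hA] at h1
    omega
  have hm1 := Submodule.finrank_sup_add_finrank_inf_eq A (X ⊔ B)
  have hm2 := Submodule.finrank_sup_add_finrank_inf_eq B (X ⊔ A)
  rw [h.hF.1.1 A hA, hXB, ← hmdef] at hm1
  rw [h.hF.1.1 B hB, hXA] at hm2
  have hsame : A ⊔ (X ⊔ B) = B ⊔ (X ⊔ A) := by
    rw [← sup_assoc, ← sup_assoc, sup_comm A X, sup_comm B X, sup_assoc, sup_assoc, sup_comm A B]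
  have hm' : finrank K (B ⊓ (X ⊔ A) : Submodule K V) = m := by
    rw [hsame] at hm1
    omega
  have hle : finrank K (A ⊔ (X ⊔ B) : Submodule K V) ≤ 2 * k + 1 := by
    rw [← h.hn]
    exact Submodule.finrank_le _
  have hp1 := part1 h X hX (A ⊓ (X ⊔ B)) (by
    rw [← le_bot_iff, ← hAX]
    exact inf_le_inf_right X inf_le_left)
  rw [← hmdef] at hp1
  have hsplit : (SS F τ X).card = ((SS F τ X).filter (fun S => S ⊓ (A ⊓ (X ⊔ B)) ≠ ⊥)).card
      + ((SS F τ X).filter (fun S => ¬ S ⊓ (A ⊓ (X ⊔ B)) ≠ ⊥)).card :=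
    (Finset.card_filter_add_card_filter_not _).symm
  rw [hsplit]
  have e4 : (4 : ℕ) ^ k = 2 ^ k * 2 ^ k := by rw [← mul_pow]; norm_num
  by_cases hm3 : m + 3 ≤ k
  · -- a third member
    have hM0 : (A ⊓ (X ⊔ B) : Submodule K V) ≠ ⊥ := by
      intro h0
      rw [h0, finrank_bot] at hmdef
      omega
    obtain ⟨r, hr, hr0⟩ := exists_vec _ hM0
    obtain ⟨C, hC, -, hCX, hrC⟩ := sep h X hX r (hsepA A r hA hAX hr.1 hr0)
    have h1 : finrank K (A ⊓ (X ⊔ C) : Submodule K V) ≤ m := by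
      refine hmax (A, C) ?_
      rw [hPP, Finset.mem_filter, Finset.mem_product, hKK, Finset.mem_filter, Finset.mem_filter]
      exact ⟨⟨⟨hA, hAX⟩, ⟨hC, hCX⟩⟩, hlt A (X ⊔ C) r hA hr.1 hrC⟩
    have h2 : finrank K (B ⊓ (X ⊔ C) : Submodule K V) ≤ m := by
      refine hmax (B, C) ?_
      rw [hPP, Finset.mem_filter, Finset.mem_product, hKK, Finset.mem_filter, Finset.mem_filter]
      refine ⟨⟨⟨hB, hBX⟩, ⟨hC, hCX⟩⟩, ?_⟩
      show finrank K (B ⊓ (X ⊔ C) : Submodule K V) < k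
      obtain ⟨x, hx, b, hb, hxb⟩ := Submodule.mem_sup.mp hr.2
      refine hlt B (X ⊔ C) b hB hb ?_
      intro h3
      refine hrC ?_
      rw [← hxb]
      exact Submodule.add_mem _ (Submodule.mem_sup_left hx) h3
    have hp3 := part3 h X hX A B C hA hB hC hAX hBX hCX m h1 h2
    have h5 : 2 ^ m * 8 ≤ 2 ^ k := by
      calc 2 ^ m * 8 = 2 ^ (m + 3) := by rw [pow_add]; norm_num
        _ ≤ 2 ^ k := Nat.pow_le_pow_right (by norm_num) hm3
    have h6 : 2 ^ m * 8 * 2 ^ k ≤ 2 ^ k * 2 ^ k := Nat.mul_le_mul_right _ h5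
    rw [e4]
    nlinarith [hp1, hp3, h6]
  · have hp2 := part2 h X hX A B hA hB hAX hBX
    rw [← hmdef, hm'] at hp2
    have hcase : m + 1 = k ∨ m + 2 = k := by omega
    rcases hcase with hc | hc
    · have e : 2 ^ k = 2 * 2 ^ m := by rw [← hc, pow_succ]; ring
      have e5 : 2 ^ k - 2 ^ m = 2 ^ m := by omega
      rw [e5] at hp2
      rw [e4]
      rw [e] at hp1 ⊢
      nlinarith [hp1, hp2]
    · have e : 2 ^ k = 4 * 2 ^ m := by rw [← hc, pow_add]; ring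
      have e5 : 2 ^ k - 2 ^ m = 3 * 2 ^ m := by omega
      rw [e5] at hp2
      rw [e4]
      rw [e] at hp1 ⊢
      nlinarith [hp1, hp2]

end Run7.h391.HP
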